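import Pool.Agent.H49.CTG.LVT
import Pool.Agent.H14.CTG.UMP
import Pool.Agent.H18.CTG.ITE
import Pool.Agent.H62.CTG.MAX
import Pool.Agent.H53.CTG.CRI
import Pool.Agent.H54.CTG.PSH
import Pool.Agent.H36.CTG.LVH
import Pool.Agent.H91.CTG.LVP
import Pool.Agent.H55.CTG.UOP
import Pool.Agent.H78.CTG.PSO
import Pool.Agent.H22.CTG.EXP
import Pool.Agent.H74.CTG.ANG
import Pool.Agent.H77.CTG.LFT
import Pool.Agent.H55.CTG.GPR
import Pool.Agent.H89.CTG.THM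
import Pool.Agent.H73.CBE.Final
import Pool.Agent.H18.CBF.GAU

/-!
# Board CTG: assembly
-/

set_option autoImplicit false

open Set Filter Topology

namespace Pool.CTG

theorem f_LVT : LVTStmt := LVT_thm
theorem f_UMP : UMPStmt := UMP_thm f_LVT
theorem f_ITE : ITEStmt := ITE_thm f_LVT f_UMP
theorem f_MAX : MAXStmt := MAX_thm
theorem f_CRI : CRIStmt := CRI_thm
theorem f_PSH : PSHStmt := PSH_thm
theorem f_LVH : LVHStmt := LVH_thm
theorem f_LVP : LVPStmt := LVP_thm f_LVH f_PSH f_MAX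
theorem f_UOP : UOPStmt := UOP_thm f_LVH f_LVP
theorem f_PSO : PSOStmt := PSO_thm f_LVP
theorem f_EXP : EXPStmt := EXP_thm f_LVH f_LVP f_ITE
theorem f_ANG : ANGStmt := ANG_thm
theorem f_LFT : LFTStmt := LFT_thm f_ITE f_EXP f_ANG
theorem f_GPR : GPRStmt := GPR_thm
theorem f_THM : THMStmt := THM_thm f_PSO f_UOP f_UMP f_ITE f_LFT f_CRI f_GPR

end Pool.CTG

namespace Pool.CBF

theorem f_GAU : GAUStmt :=
  GAU_thm Pool.CBE.f_CON Pool.CBE.f_FDR Pool.CBE.f_TRA Pool.CBE.f_EXD Pool.CBE.f_HPR Pool.CBE.f_HDA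
    Pool.CBE.f_HHL

end Pool.CBF
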