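import Mathlib

/-!
# Board CTG: no homogeneous self-maps of domains with twice differentiable gauge (MP_e1af46)

THEOREM.  Let `n ≥ 2`, `d ≥ 2` and let `H` be a function on `ℂⁿ`, of class `C²` off the origin, positive
there, with `H (c z) = |c|² H z`.  Then no map `f` given by homogeneous polynomials of degree `d` maps
`D = {H < 1}` properly to itself.  (Sharp counterpart of LowRegularity, where `H` is of class `C^{1,a}`,
`a < 1`.)

PROOF.  `G = log H` satisfies `G (f z) = d G z`, `G (c z) = G z + 2 log |c|`.  Let `L z v` be its Levi form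
(the Laplacian at `0` of `ζ ↦ G (z + ζ v)`): `L (f z) (Df z v) = d L z v`.  `L ≥ 0` (LVP), since `G` is
the uniform limit of `d^(-k) log ‖fᵏ z‖²`; `L > 0` (modulo the direction `z`) at the points where
`G - log ‖z‖²` is minimal (PSO).  Let `U` be the open cone of the points where `L > 0`: `f` maps `U` to
`U` and is locally invertible there, and `fᵏ` expands all directions near a point `z₀ ∈ U` by at least
`c d^(k/2)` (EXP).  So `fᵏ (ball z₀ δ)` meets every complex line for large `k` (LFT): minimise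
`angle (fᵏ z, y) + λ ‖z - z₀‖`.  So `U` is everything off the origin, and `det Df` has no zero there; but it
is homogeneous of degree `n (d - 1) > 0` (CRI).
-/

set_option autoImplicit false

open Set Filter Topology

namespace Pool.CTG

/-- `ℂⁿ` with the Euclidean norm -/
abbrev E (n : ℕ) : Type := EuclideanSpace ℂ (Fin n)

/-- the Levi form (Laplacian in the direction `v`) -/
noncomputable def L {n : ℕ} (G : E n → ℝ) (z v : E n) : ℝ :=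
  fderiv ℝ (fun y => fderiv ℝ G y v) z v +
    fderiv ℝ (fun y => fderiv ℝ G y (Complex.I • v)) z (Complex.I • v)

/-- the hypotheses -/
structure Hyp {n : ℕ} (f : E n → E n) (d : ℕ) (G : E n → ℝ) : Prop where
  hn : 2 ≤ n
  hd : 2 ≤ d
  cd : ContDiff ℂ 2 f
  hom : ∀ (c : ℂ) (z : E n), f (c • z) = c ^ d • f z
  nz : ∀ z : E n, z ≠ 0 → f z ≠ 0
  g2 : ContDiffOn ℝ 2 G {z | z ≠ 0}
  gh : ∀ (c : ℂ) (z : E n), c ≠ 0 → z ≠ 0 → G (c • z) = G z + 2 * Real.log ‖c‖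
  ge : ∀ z : E n, z ≠ 0 → G (f z) = d * G z

/-- the points where the Levi form is positive -/
def U {n : ℕ} (G : E n → ℝ) : Set (E n) :=
  {z | z ≠ 0 ∧ ∀ v : E n, (¬ ∃ c : ℂ, v = c • z) → 0 < L G z v}

/-- LVT: transformation.  Proof: chain rule; the second derivative of `f` drops out, as
`D²f (i v) (i v) = - D²f v v` (`f` is holomorphic). -/
def LVTStmt : Prop :=
  ∀ (n : ℕ) (f : E n → E n) (d : ℕ) (G : E n → ℝ), Hyp f d G → ∀ z v : E n, z ≠ 0 →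
    L G (f z) (fderiv ℂ f z v) = d * L G z v ∧
    fderiv ℝ G (f z) (fderiv ℂ f z v) = d * fderiv ℝ G z v

/-- LVH: homogeneity.  `L G z z = 0` since `ζ ↦ log |1 + ζ|` is harmonic; `L G z` is a quadratic form,
invariant under `v ↦ i v`; continuity. -/
def LVHStmt : Prop :=
  ∀ (n : ℕ) (f : E n → E n) (d : ℕ) (G : E n → ℝ), Hyp f d G →
    (∀ (c : ℂ) (z v : E n), c ≠ 0 → z ≠ 0 → L G (c • z) (c • v) = L G z v ∧
      fderiv ℝ G (c • z) (c • v) = fderiv ℝ G z v) ∧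
    (∀ z : E n, z ≠ 0 → L G z z = 0 ∧ fderiv ℝ G z z = 2 ∧ fderiv ℝ G z (Complex.I • z) = 0) ∧
    (∀ (c : ℂ) (z v : E n), z ≠ 0 → L G z (c • v) = ‖c‖ ^ 2 * L G z v) ∧
    (∀ z v w : E n, z ≠ 0 → L G z (v + w) + L G z (v - w) = 2 * L G z v + 2 * L G z w) ∧
    ContinuousOn (fun p : E n × E n => L G p.1 p.2) {p | p.1 ≠ 0}

/-- PSH: `log ‖F‖²` is subharmonic.  Proof: with `f' = deriv F ζ` the Laplacian is
`4 (‖F‖² ‖F'‖² - |⟨F, F'⟩|²) / ‖F‖⁴`. -/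
def PSHStmt : Prop :=
  ∀ (n : ℕ) (F : ℂ → E n) (ζ₀ : ℂ) (r : ℝ), 0 < r → DifferentiableOn ℂ F (Metric.ball ζ₀ r) →
    (∀ ζ ∈ Metric.ball ζ₀ r, F ζ ≠ 0) →
    ContDiffOn ℝ 2 (fun ζ => Real.log (‖F ζ‖ ^ 2)) (Metric.ball ζ₀ r) ∧
    ∀ ζ ∈ Metric.ball ζ₀ r,
      0 ≤ fderiv ℝ (fun y => fderiv ℝ (fun x => Real.log (‖F x‖ ^ 2)) y 1) ζ 1 +
        fderiv ℝ (fun y => fderiv ℝ (fun x => Real.log (‖F x‖ ^ 2)) y Complex.I) ζ Complex.I

/-- MAX: maximum principle.  Proof: otherwise `u - c |ζ|²` (small `c > 0`) has a maximum over the closed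
disc at an interior point, where its second derivatives are at most zero. -/
def MAXStmt : Prop :=
  ∀ (u : ℂ → ℝ) (r R c M : ℝ), 0 < r → r < R → 0 < c → ContDiffOn ℝ 2 u (Metric.ball 0 R) →
    (∀ ζ ∈ Metric.ball (0 : ℂ) R, c ≤ fderiv ℝ (fun y => fderiv ℝ u y 1) ζ 1 +
      fderiv ℝ (fun y => fderiv ℝ u y Complex.I) ζ Complex.I) →
    (∀ ζ : ℂ, ‖ζ‖ = r → u ζ ≤ M) → u 0 ≤ M - c / 8 * r ^ 2

/-- LVP: the Levi form is nonnegative.  Proof: `|G z - log ‖z‖²| ≤ C` off the origin (compact sphere,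
homogeneity), so `|G z - d^(-k) log ‖fᵏ z‖²| ≤ C / d^k`.  If `L G z v < 0`, then `u ζ = G (z + ζ v)` has
Laplacian `≤ -c < 0` on a small disc (LVH continuity); MAX for `d^(-k) log ‖fᵏ (z + ζ v)‖² - u ζ` (PSH)
gives a contradiction for large `k`.  The second: the form is positive semidefinite and vanishes at
`z`.  Needs LVH PSH MAX. -/
def LVPStmt : Prop :=
  ∀ (n : ℕ) (f : E n → E n) (d : ℕ) (G : E n → ℝ), Hyp f d G → ∀ z v : E n, z ≠ 0 →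
    0 ≤ L G z v ∧ ∀ c : ℂ, L G z (v + c • z) = L G z v

/-- PSO: a point of `U`.  Proof: let `z₀` be a minimum of `G - log ‖z‖²` on the unit sphere, so on
`z ≠ 0`.  For `v ⊥ z₀` the function `ζ ↦ G (z₀ + ζ v) - log (1 + |ζ|² ‖v‖²)` has a minimum at `0`, so
`L G z₀ v ≥ 4 ‖v‖²`.  A vector which is not a multiple of `z₀` is `v + c z₀` with `v ⊥ z₀`, `v ≠ 0`:
LVP.  Needs LVP. -/
def PSOStmt : Prop :=
  ∀ (n : ℕ) (f : E n → E n) (d : ℕ) (G : E n → ℝ), Hyp f d G → (U G).Nonempty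

/-- UOP: `U` is an open cone.  Proof: `L G` is positive on the compact set of the unit vectors
orthogonal to `z`, continuity, LVP.  Needs LVH LVP. -/
def UOPStmt : Prop :=
  ∀ (n : ℕ) (f : E n → E n) (d : ℕ) (G : E n → ℝ), Hyp f d G → IsOpen (U G) ∧
    ∀ (c : ℂ) (z : E n), c ≠ 0 → (c • z ∈ U G ↔ z ∈ U G)

/-- UMP: `f` on `U`.  Proof: if `Df z v = 0` then `L G z v = 0` by LVT, so `v = c z`, and
`Df z z = d f z ≠ 0` gives `c = 0`.  So `Df z` is bijective; if `w = Df z v` is not a multiple of `f z`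
then `v` is not a multiple of `z`, and `L G (f z) w = d L G z v > 0`.  Needs LVT. -/
def UMPStmt : Prop :=
  ∀ (n : ℕ) (f : E n → E n) (d : ℕ) (G : E n → ℝ), Hyp f d G → MapsTo f (U G) (U G) ∧
    ∀ z ∈ U G, Function.Bijective (fderiv ℂ f z)

/-- ITE: iterates.  Proof: induction, LVT, UMP.  Needs LVT UMP. -/
def ITEStmt : Prop :=
  ∀ (n : ℕ) (f : E n → E n) (d : ℕ) (G : E n → ℝ), Hyp f d G → ∀ k : ℕ, ContDiff ℂ 2 (f^[k]) ∧
    MapsTo (f^[k]) (U G) (U G) ∧ (∀ z : E n, z ≠ 0 → f^[k] z ≠ 0) ∧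
    ∀ z ∈ U G, Function.Bijective (fderiv ℂ (f^[k]) z) ∧
      ∀ v : E n, L G (f^[k] z) (fderiv ℂ (f^[k]) z v) = (d : ℝ) ^ k * L G z v ∧
        fderiv ℝ G (f^[k] z) (fderiv ℂ (f^[k]) z v) = (d : ℝ) ^ k * fderiv ℝ G z v

/-- EXP: expansion.  Proof: on the compact set `K ⊆ U` the function
`√(L G z v) + |DG z v| + |DG z (i v)|` is positive for `v ≠ 0` (if `L G z v = 0` then `v = c z` and
`DG z (c z) = 2 Re c`, `DG z (i c z) = - 2 Im c`), so at least `c₀ ‖v‖`.  By homogeneity (LVH) and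
compactness `L G w ω ≤ C ‖ω‖² / ‖w‖²`, `|DG w ω| ≤ C ‖ω‖ / ‖w‖` for all `w ≠ 0`.  ITE.
Needs LVH LVP ITE. -/
def EXPStmt : Prop :=
  ∀ (n : ℕ) (f : E n → E n) (d : ℕ) (G : E n → ℝ) (K : Set (E n)), Hyp f d G → IsCompact K →
    K ⊆ U G → ∃ C : ℝ, 0 < C ∧ ∀ k : ℕ, ∀ z ∈ K, ∀ v : E n,
      ‖v‖ * ‖f^[k] z‖ * √((d : ℝ) ^ k) ≤ C * ‖fderiv ℂ (f^[k]) z v‖

/-- ANG: the angle function.  For `y` a unit vector let `A w = arccos (‖⟨y, w⟩‖ / ‖w‖)`; if `A w > 0`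
there is a direction `ω`, `‖ω‖ = ‖w‖`, in which `A` decreases at rate at least one.  Proof: let
`e = w / ‖w‖`, `⟨y, w⟩ = |⟨y, w⟩| σ`, `|σ| = 1` (`σ = 1` if it is zero), `B = |⟨y, e⟩| < 1`, and
`ω = ‖w‖ (σ y - B e) / √(1 - B²)`, orthogonal to `w`; then `⟨y, w + τ ω⟩ = ‖w‖ σ (B + τ √(1 - B²))`
and `‖w + τ ω‖² = ‖w‖² (1 + τ²)`, so `A (w + τ ω) = arccos ((B + τ √(1-B²)) / √(1+τ²))
= A w - arctan τ`. -/
def ANGStmt : Prop :=
  ∀ (n : ℕ) (y w : E n), ‖y‖ = 1 → w ≠ 0 → ‖(inner ℂ y w : ℂ)‖ < ‖w‖ → ∃ ω : E n, ‖ω‖ = ‖w‖ ∧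
    ∃ τ₀ > 0, ∀ τ : ℝ, 0 < τ → τ < τ₀ →
      Real.arccos (‖(inner ℂ y (w + (τ : ℂ) • ω) : ℂ)‖ / ‖w + (τ : ℂ) • ω‖) =
        Real.arccos (‖(inner ℂ y w : ℂ)‖ / ‖w‖) - Real.arctan τ

/-- LFT: all lines are reached.  Proof: let `‖y‖ = 1`, `A` as in ANG; minimise
`F z = A (fᵏ z) + (4 / δ) ‖z - z₀‖` over the closed ball of radius `δ` (in `U`); at the minimum
`(4 / δ) ‖z - z₀‖ ≤ F z₀ ≤ π / 2`, so `‖z - z₀‖ < δ`.  If `A (fᵏ z) > 0` take `ω` from ANG for `w = fᵏ z`,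
`v` with `D(fᵏ) z v = ω` (ITE); `‖v‖ ≤ C / √(d^k)` by EXP.  `fᵏ (z + τ v) = w + τ ω + O(τ²)` and `A` is
Lipschitz near `w` off its zeros (or: `arccos` of a function which is differentiable at the points in
question), so `F (z + τ v) ≤ F z - τ + (4 / δ) ‖v‖ τ + o(τ) < F z` if `(4/δ) C < √(d^k)`:
contradiction.  So `A (fᵏ z) = 0` and `fᵏ z` is a multiple of `y` (equality in Cauchy-Schwarz).
Needs ITE EXP ANG. -/
def LFTStmt : Prop :=
  ∀ (n : ℕ) (f : E n → E n) (d : ℕ) (G : E n → ℝ) (z₀ : E n) (δ : ℝ), Hyp f d G → 0 < δ →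
    Metric.closedBall z₀ δ ⊆ U G → ∃ k : ℕ, ∀ y : E n, y ≠ 0 → ∃ z ∈ Metric.closedBall z₀ δ,
      ∃ c : ℂ, c ≠ 0 ∧ f^[k] z = c • y

/-- CRI: critical points.  Proof: `J z = det Df z` is holomorphic (polynomial in the entries of `Df z`)
and `J (c z) = c^N J z`, `N = n (d - 1) ≥ 1`.  If it has no zero off the origin: `s ↦ J (s e₁ + e₂)` is
entire without zeros and at most of polynomial growth, so constant; so
`J (s e₁ + t e₂) = c₀ t^N` for `t ≠ 0`, and by continuity `J e₁ = 0`. -/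
def CRIStmt : Prop :=
  ∀ (n d : ℕ) (f : E n → E n), 2 ≤ n → 2 ≤ d → ContDiff ℂ 3 f →
    (∀ (c : ℂ) (z : E n), f (c • z) = c ^ d • f z) →
    ∃ y : E n, y ≠ 0 ∧ ¬ Function.Bijective (fderiv ℂ f y)

/-- GPR: from the gauge to `G`.  Proof: let `H z = 1`; for `0 < t < 1`, `t z ∈ D` and
`f (t z) = t^d f z`; if `H (f z) < 1` then all `f (t z)` are in the compact subset `{H ≤ H (f z)}` of
`D`, so the `t z` are in a compact subset of `D`, impossible; so `H (f z) = 1`.  By homogeneity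
`H (f z) = H z ^ d`.  `G = log H`.  (`f z ≠ 0` since `H (f z) > 0`; `H 0 = 0`.) -/
def GPRStmt : Prop :=
  ∀ (n d : ℕ) (f : E n → E n) (H : E n → ℝ), 2 ≤ n → 2 ≤ d → ContDiff ℂ 2 f →
    (∀ (c : ℂ) (z : E n), f (c • z) = c ^ d • f z) → ContDiffOn ℝ 2 H {z | z ≠ 0} →
    (∀ z : E n, z ≠ 0 → 0 < H z) → (∀ (c : ℂ) (z : E n), H (c • z) = ‖c‖ ^ 2 * H z) →
    MapsTo f {z | H z < 1} {z | H z < 1} →
    (∀ K : Set (E n), K ⊆ {z | H z < 1} → IsCompact K → IsCompact ({z | H z < 1} ∩ f ⁻¹' K)) →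
    Hyp f d (fun z => Real.log (H z))

/-- THM: the theorem on `Fin n → ℂ`.  Proof: transport by `EuclideanSpace.equiv (Fin n) ℂ`; GPR; PSO, UOP:
a closed ball in `U`; LFT for the point `y` of CRI: `c y = fᵏ z ∈ U`, so `y ∈ U` and `Df y` is bijective
(UMP).  Needs PSO UOP UMP ITE LFT CRI GPR. -/
def THMStmt : Prop :=
  ∀ (n d : ℕ) (H : (Fin n → ℂ) → ℝ) (f : (Fin n → ℂ) → (Fin n → ℂ))
    (p : Fin n → MvPolynomial (Fin n) ℂ), 2 ≤ n → 2 ≤ d → ContDiffOn ℝ 2 H {z | z ≠ 0} →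
    (∀ z, z ≠ 0 → 0 < H z) → (∀ (c : ℂ) (z : Fin n → ℂ), H (c • z) = ‖c‖ ^ 2 * H z) →
    (∀ i, (p i).IsHomogeneous d) → (∀ z i, f z i = MvPolynomial.eval z (p i)) →
    MapsTo f {z | H z < 1} {z | H z < 1} →
    ¬ ∀ K : Set (Fin n → ℂ), K ⊆ {z | H z < 1} → IsCompact K →
      IsCompact ({z | H z < 1} ∩ f ⁻¹' K)

end Pool.CTG
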